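import Mathlib
import Pool.Agent.Helper55.RT.Spec5

/-!
# THIN-3, part STB (for helper55's swarm)
-/

set_option autoImplicit false

namespace Pool.Agent.Helper72.Thin.STB

open Pool.Agent.Helper55.RT

/-- the representation over `Ω` -/
noncomputable def ext (p : ℕ) [Fact p.Prime] (Ω : Type) [Field Ω] [Algebra ℚ_[p] Ω] (m : ℕ)
    (R : Type) [Group R] (r : R →* GL (Fin m) ℚ_[p]) : Representation Ω R (Fin m → Ω) :=
  ((Matrix.toLinAlgEquiv' : Matrix (Fin m) (Fin m) Ω ≃ₐ[Ω] _).toAlgHom.toRingHom.toMonoidHom.comp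
    ((algebraMap ℚ_[p] Ω).mapMatrix.toMonoidHom.comp ((Units.coeHom _).comp r)))

theorem ext_apply (p : ℕ) [Fact p.Prime] (Ω : Type) [Field Ω] [Algebra ℚ_[p] Ω] (m : ℕ)
    (R : Type) [Group R] (r : R →* GL (Fin m) ℚ_[p]) (h : R) (x : Fin m → Ω) :
    ext p Ω m R r h x = ((r h).1.map (algebraMap ℚ_[p] Ω)).mulVec x := by
  rfl

theorem main (hMON : Q_MON) (hEXO : Q_EXO) : Q_STB := by
  intro p hp Ω _ _ _ _ m hm R _ _ hR r
  have hspan := hMON p Ω R hR (Fin m → Ω) (ext p Ω m R r)
  rw [eq_top_iff, ← hspan]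
  refine Submodule.span_mono ?_
  rintro x ⟨H, χ, hind, hx⟩
  have hfin : Module.finrank Ω (Fin m → Ω) = m := by simp
  rw [hfin] at hind
  by_cases hx0 : x = 0
  · refine ⟨⊤, ?_, fun h _ => ?_⟩
    · rw [Subgroup.index_top]
      have := hp.out.pos
      have : 0 < 2 * p * m ^ 2 := by positivity
      omega
    · rw [hx0, Matrix.mulVec_zero]
  · haveI : Finite χ.range := Finite.of_surjective χ.rangeRestrict χ.rangeRestrict_surjective
    have hcyc : IsCyclic χ.range := isCyclic_subgroup_units χ.range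
    obtain ⟨⟨g, h₀, hh₀⟩, hg⟩ := hcyc.exists_generator
    have hcard : Nat.card χ.range = orderOf (χ h₀) := by
      have h1 := orderOf_eq_card_of_forall_mem_zpowers hg
      rw [← h1, ← Subgroup.orderOf_coe]
      show orderOf g = orderOf (χ h₀)
      exact congrArg orderOf hh₀.symm
    obtain ⟨a, ha⟩ := hR (h₀ : R)
    obtain ⟨b, hb, hgb⟩ := hEXO p m hm (r (h₀ : R)).1 a (by
      have : (r (h₀ : R)) ^ p ^ a = 1 := by rw [← map_pow, ha, map_one]
      have := congrArg Units.val this
      simpa using this)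
    have hχ : χ h₀ ^ p ^ b = 1 := by
      have h1 : ext p Ω m R r ((h₀ : R) ^ p ^ b) x = x := by
        rw [ext_apply]
        have : r ((h₀ : R) ^ p ^ b) = 1 := by
          apply Units.ext
          rw [map_pow]
          simpa using hgb
        rw [this]
        simp
      have h2 := hx (h₀ ^ p ^ b)
      rw [Subgroup.coe_pow, h1] at h2
      apply Units.ext
      have h3 : (((χ (h₀ ^ p ^ b) : Ωˣ) : Ω) - 1) • x = 0 := by
        rw [sub_smul, one_smul, ← h2, sub_self]
      rcases smul_eq_zero.1 h3 with h | h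
      · rw [map_pow] at h
        rw [sub_eq_zero.1 h]; rfl
      · exact absurd h hx0
    have hord : orderOf (χ h₀) ≤ 2 * p * m :=
      (Nat.le_of_dvd (pow_pos hp.out.pos b) (orderOf_dvd_of_pow_eq_one hχ)).trans hb
    refine ⟨χ.ker.map H.subtype, ?_, ?_⟩
    · have h1 : (χ.ker.map H.subtype).index = χ.ker.index * H.index := by
        rw [Subgroup.index_map_subtype]
      have h2 : χ.ker.index = Nat.card χ.range := Subgroup.index_ker χ
      rw [h1, h2, hcard]
      calc orderOf (χ h₀) * H.index ≤ (2 * p * m) * m := Nat.mul_le_mul hord hind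
        _ = 2 * p * m ^ 2 := by ring
    · rintro _ ⟨h, hh, rfl⟩
      have h1 := hx h
      have hh' : χ h = 1 := hh
      rw [hh', Units.val_one, one_smul] at h1
      exact h1

end Pool.Agent.Helper72.Thin.STB
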